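import Pool.Agent.E8helper17.CND.S

set_option autoImplicit false

open H17CND

namespace Pool.Agent.E8helper70.CND

theorem path_of_HP {V : Type} {G : SimpleGraph V} {A : Set V} {u v : V} (h : HP G A u v) :
    ∃ p : G.Walk u v, p.IsPath ∧ ∀ x, x ∈ p.support ↔ x ∈ A := by
  obtain ⟨l, ⟨hnd, hch⟩, hu, hv, hA⟩ := h
  have hne : l ≠ [] := by
    rintro rfl
    simp at hu
  have h1 : l.head hne = u := by
    rw [List.head?_eq_some_head hne] at hu
    exact Option.some.inj hu
  have h2 : l.getLast hne = v := by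
    rw [List.getLast?_eq_some_getLast hne] at hv
    exact Option.some.inj hv
  subst h1 h2
  refine ⟨SimpleGraph.Walk.ofSupport l hne hch, ?_, ?_⟩
  · rw [SimpleGraph.Walk.isPath_def, SimpleGraph.Walk.support_ofSupport]
    exact hnd
  · intro x
    rw [SimpleGraph.Walk.support_ofSupport]
    exact hA x

theorem blob_not_acyclic (g : ℕ) (B : Blob g) : ¬ B.H.IsAcyclic := by
  intro hac
  have h10 : B.τ 1 ≠ B.τ 0 := fun h => absurd (B.inj h) (by decide)
  have h20 : B.τ 2 ≠ B.τ 0 := fun h => absurd (B.inj h) (by decide)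
  have h12 : B.τ 1 ≠ B.τ 2 := fun h => absurd (B.inj h) (by decide)
  obtain ⟨q, hq, hqs⟩ := path_of_HP (B.ham 0 (B.τ 1) h10)
  have hnil : ¬ q.Nil := fun h => h10 h.eq
  have hadj := q.adj_penultimate hnil
  have hne : q.penultimate ≠ B.τ 0 := hadj.ne
  obtain ⟨p, hp, hps⟩ := path_of_HP (B.ham 0 q.penultimate hne)
  have hP := hac.path_unique ⟨p, hp⟩ (SimpleGraph.Path.singleton hadj)
  have hsup : ∀ x, x ∈ p.support → x = q.penultimate ∨ x = B.τ 0 := by
    intro x hx
    have h : p = (SimpleGraph.Path.singleton hadj : B.H.Walk _ _) := congrArg Subtype.val hP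
    rw [h] at hx
    simpa [SimpleGraph.Path.singleton] using hx
  have h1 := (hsup (B.τ 1) ((hps _).2 (Set.mem_univ _))).resolve_right h10
  have h2 := (hsup (B.τ 2) ((hps _).2 (Set.mem_univ _))).resolve_right h20
  exact h12 (h1.trans h2.symm)

theorem CACYC : S_CACYC := by
  intro g B hac
  apply blob_not_acyclic g B
  exact SimpleGraph.IsAcyclic.comap (⟨fun h => CV.b 0 false h, by
    intro a b h
    exact ⟨rfl, Or.inl ⟨rfl, h⟩⟩⟩ : B.H →g comp B.H B.τ) (by
      intro a b h
      exact (CV.b.inj h).2.2) hac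

end Pool.Agent.E8helper70.CND
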