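import Pool.Agent.E8helper17.CND.S

set_option autoImplicit false

open H17CND

namespace Pool.Agent.E8helper70.CND

open Classical in
theorem flow_aux (hE : S_EXT) (hD : S_DEG) (V : Type) [Finite V] (G : SimpleGraph V) (g D n : ℕ)
    (hg : GirthGE G g) (hdeg : DegLE G D) (a : ℕ → V) (C : ℕ → Finset V)
    (ha : ∀ k < n, ∀ l < n, a k = a l → k = l)
    (hC : ∀ k < n, k + (D + 3) ^ g < (C k).card) (k : ℕ) (hk : k ≤ n) :
    ∃ (b : ℕ → V) (G' : SimpleGraph V), G ≤ G' ∧ GirthGE G' g ∧ (∀ l < k, b l ∈ C l) ∧
      (∀ l < k, ∀ m < k, b l = b m → l = m) ∧ (∀ l < k, G'.Adj (a l) (b l)) ∧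
      ∀ v, (G'.neighborSet v).ncard ≤ (G.neighborSet v).ncard +
        (if ∃ l < k, a l = v then 1 else 0) + (if ∃ l < k, b l = v then 1 else 0) := by
  induction k with
  | zero =>
    refine ⟨a, G, le_refl _, hg, ?_, ?_, ?_, ?_⟩
    · intro l hl; omega
    · intro l hl; omega
    · intro l hl; omega
    · intro v
      simp
  | succ k ih =>
    obtain ⟨b, G', hle, hg', hb, hbi, hadj, hdeg'⟩ := ih (by omega)
    have hDeg2 : DegLE G' (D + 2) := by
      intro v
      have h1 := hdeg' v
      have h2 := hdeg v
      have h3 : (if ∃ l < k, a l = v then 1 else 0) ≤ 1 := by split_ifs <;> omega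
      have h4 : (if ∃ l < k, b l = v then 1 else 0) ≤ 1 := by split_ifs <;> omega
      omega
    have hcard : (D + 2 + 1) ^ g < (C k \ (Finset.range k).image b).card := by
      have h1 := hC k (by omega)
      have h2 : (C k).card ≤ (C k \ (Finset.range k).image b).card +
          ((Finset.range k).image b).card := Finset.card_le_card_sdiff_add_card
      have h3 : ((Finset.range k).image b).card ≤ k := by
        have := Finset.card_image_le (s := Finset.range k) (f := b)
        simpa using this
      have h4 : (D + 2 + 1) ^ g = (D + 3) ^ g := by norm_num [add_assoc]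
      omega
    obtain ⟨b', hb', hne, -, hg2⟩ := hE V G' g (D + 2) (a k) _ hg' hDeg2 hcard
    rw [Finset.mem_sdiff, Finset.mem_image] at hb'
    obtain ⟨hb'C, hb'n⟩ := hb'
    have hnew : ∀ l < k, b l ≠ b' := fun l hl h => hb'n ⟨l, Finset.mem_range.2 hl, h⟩
    have hup : ∀ l, l < k → Function.update b k b' l = b l := fun l hl =>
      Function.update_of_ne (by omega) _ _
    have hupk : Function.update b k b' k = b' := Function.update_self _ _ _
    refine ⟨Function.update b k b', G' ⊔ SimpleGraph.edge (a k) b', hle.trans le_sup_left, hg2,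
      ?_, ?_, ?_, ?_⟩
    · intro l hl
      rcases Nat.lt_succ_iff_lt_or_eq.1 hl with h | rfl
      · rw [hup l h]; exact hb l h
      · rw [hupk]; exact hb'C
    · intro l hl m hm h
      rcases Nat.lt_succ_iff_lt_or_eq.1 hl with h1 | rfl <;>
        rcases Nat.lt_succ_iff_lt_or_eq.1 hm with h2 | h2
      · rw [hup l h1, hup m h2] at h
        exact hbi l h1 m h2 h
      · subst h2
        rw [hup l h1, hupk] at h
        exact absurd h (hnew l h1)
      · rw [hup m h2, hupk] at h
        exact absurd h.symm (hnew m h2)
      · exact h2.symm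
    · intro l hl
      rcases Nat.lt_succ_iff_lt_or_eq.1 hl with h | rfl
      · rw [hup l h]
        exact (le_sup_left : G' ≤ G' ⊔ SimpleGraph.edge (a k) b') (hadj l h)
      · rw [hupk]
        apply (le_sup_right : SimpleGraph.edge (a l) b' ≤ G' ⊔ SimpleGraph.edge (a l) b')
        rw [SimpleGraph.edge_adj]
        exact ⟨Or.inl ⟨rfl, rfl⟩, fun h => hne h.symm⟩
    · intro v
      have h1 := hD V G' (a k) b' v (fun h => hne h.symm)
      have h2 := hdeg' v
      have h3 : (if v = a k then 1 else 0) + (if ∃ l < k, a l = v then 1 else 0) ≤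
          (if ∃ l < k + 1, a l = v then 1 else 0) := by
        by_cases h4 : v = a k
        · have h5 : ¬ ∃ l < k, a l = v := by
            rintro ⟨l, hl, h6⟩
            have := ha l (by omega) k (by omega) (h6.trans h4)
            omega
          have h6 : ∃ l < k + 1, a l = v := ⟨k, by omega, h4.symm⟩
          rw [if_pos h4, if_neg h5, if_pos h6]
        · by_cases h5 : ∃ l < k, a l = v
          · have h6 : ∃ l < k + 1, a l = v := by
              obtain ⟨l, hl, h7⟩ := h5
              exact ⟨l, by omega, h7⟩
            rw [if_neg h4, if_pos h5, if_pos h6]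
          · rw [if_neg h4, if_neg h5]
            exact Nat.zero_le _
      have h3' : (if v = b' then 1 else 0) + (if ∃ l < k, b l = v then 1 else 0) ≤
          (if ∃ l < k + 1, Function.update b k b' l = v then 1 else 0) := by
        by_cases h4 : v = b'
        · have h5 : ¬ ∃ l < k, b l = v := by
            rintro ⟨l, hl, h6⟩
            exact hnew l hl (h6.trans h4)
          have h6 : ∃ l < k + 1, Function.update b k b' l = v := ⟨k, by omega, by rw [hupk, h4]⟩
          rw [if_pos h4, if_neg h5, if_pos h6]
        · by_cases h5 : ∃ l < k, b l = v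
          · have h6 : ∃ l < k + 1, Function.update b k b' l = v := by
              obtain ⟨l, hl, h7⟩ := h5
              exact ⟨l, by omega, by rw [hup l hl, h7]⟩
            rw [if_neg h4, if_pos h5, if_pos h6]
          · rw [if_neg h4, if_neg h5]
            exact Nat.zero_le _
      omega

theorem FLOW (hE : S_EXT) (hD : S_DEG) : S_FLOW := by
  intro V _ G g D n hg hdeg a C ha hC
  obtain ⟨b, G', hle, hg', hb, -, hadj, hdeg'⟩ :=
    flow_aux hE hD V G g D n hg hdeg a C ha hC n le_rfl
  refine ⟨b, G', hle, hg', ?_, hb, hadj⟩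
  intro v
  have h1 := hdeg' v
  have h2 := hdeg v
  classical
  have h3 : (if ∃ l < n, a l = v then 1 else 0) ≤ 1 := by split_ifs <;> omega
  have h4 : (if ∃ l < n, b l = v then 1 else 0) ≤ 1 := by split_ifs <;> omega
  omega

end Pool.Agent.E8helper70.CND
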